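import Pool.Agent.helper96.DP.API

/-!
# Part G, first half, and F3: exploration of the square, variance of the conditional expectation,
growth of `n ^ 2 * Pr (four)`

The square `Dq N` has radius `4 * N`; `fq N` is the event that it has a black left to right
crossing. The bulk `L` satisfies `box 0 (4 * N - 2 * t) ⊆ L ⊆ box 0 (4 * N - t)` with
`N = 2 ^ J * t`: the frame is thin (`J` is a fixed large number).
-/

namespace DP

open MeasureTheory

/-! ## Definitions -/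

/-- The square of radius `4 * N`. -/
def Dq (N : ℕ) : Set V := rect (-(4 * N : ℤ)) (4 * N) (-(4 * N : ℤ)) (4 * N)

/-- The same square as a finset. -/
noncomputable def DqF (N : ℕ) : Finset V :=
  Finset.Icc (-(4 * N : ℤ)) (4 * N) ×ˢ Finset.Icc (-(4 * N : ℤ)) (4 * N)

/-- Black left to right crossing of the square. -/
def fq (N : ℕ) : Set (V → Bool) :=
  Ev fun c => hcross c true (-(4 * N : ℤ)) (4 * N) (-(4 * N : ℤ)) (4 * N)

open Classical in
/-- The coins of `b` in `L`, the coins of `b'` outside. -/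
noncomputable def glue (L : Finset V) (b b' : V → Bool) : V → Bool :=
  fun w => if w ∈ L then b w else b' w

/-- Conditional probability of `F` given the coins in `L`. -/
noncomputable def cpr (L : Finset V) (F : Set (V → Bool)) (b : V → Bool) : ℝ :=
  ∫ b', F.indicator (1 : (V → Bool) → ℝ) (glue L b b') ∂P1

/-- Arm of colour `k` avoiding `γ`. -/
def armA (c : V → Bool) (k : Bool) (γ : Set V) (x : V) (m n : ℕ) : Prop :=
  ∃ u ∈ bd x m, ∃ v ∈ bd x n, Conn c k (ann x m n \ γ) u v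

/-- Black and white arm avoiding `γ`. -/
def twoA (c : V → Bool) (γ : Set V) (x : V) (m n : ℕ) : Prop :=
  armA c true γ x m n ∧ armA c false γ x m n

/-- `γ` connects the box of radius `m` with the outside of the box of radius `n`. -/
def Slit (γ : Set V) (x : V) (m n : ℕ) : Prop := ∃ u v, sd x u ≤ m ∧ n ≤ sd x v ∧ Con γ u v

/-! ## Small general statements -/

/-- Monotonicity of arm events in the radii. -/
def GFM_stmt : Prop :=
  ∀ (c : V → Bool) (x : V) (m m' n' n : ℕ), m ≤ m' → m' ≤ n' → n' ≤ n →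
    (∀ k, arm c k x m n → arm c k x m' n') ∧ (four c x m n → four c x m' n') ∧
      ∀ k γ, armA c k γ x m n → armA c k γ x m' n'

/-- Translation invariance (from `Bsym`). -/
def GTR_stmt : Prop :=
  ∀ (x : V) (m n : ℕ), Even x.1 → Even x.2 →
    Pr (Ev fun c => four c x m n) = Pr (Ev fun c => four c 0 m n) ∧
      Pr (Ev fun c => two c x m n) = Pr (Ev fun c => two c 0 m n)

/-- Arm events are local. -/
def GLA_stmt : Prop :=
  ∀ (x : V) (m n : ℕ), (∀ k, Loc (Ev fun c => arm c k x m n) (ann x m n)) ∧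
    Loc (Ev fun c => four c x m n) (ann x m n) ∧
      ∀ k γ, Loc (Ev fun c => armA c k γ x m n) (ann x m n \ γ)

/-- The crossing event of the square is local and increasing. -/
def GLF_stmt : Prop := ∀ N : ℕ, Loc (fq N) (DqF N : Set V) ∧ Mon true (fq N)

/-- Squares are crossed with probability at least one half (`HX`, symmetries). -/
def GSC_stmt : Prop :=
  ∀ n : ℕ, Even n → 1 / 2 ≤ Pr (Ev fun c => hcross c true (-(n : ℤ)) n (-(n : ℤ)) n)

/-- A pivotal box of a crossing gives four arms. Take `b', b''` equal to `b` outside `B`, with a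
crossing in `b'` and none in `b''`. The crossing of `b'` contains a path from the left side to `B`
and a path from `B` to the right side, hence two black arms of the annulus; if they were connected
in the annulus there would be a crossing of `b''`. -/
def GPV_stmt : Prop :=
  ∀ (b : V → Bool) (B : Set V) (y : V) (m R : ℕ) (a₁ a₂ d₁ d₂ : ℤ), B ⊆ box y m → m + 1 ≤ R →
    (∀ v, sd y v ≤ R → a₁ < v.1 ∧ v.1 < a₂ ∧ d₁ ≤ v.2 ∧ v.2 ≤ d₂) →
      b ∈ Piv B (Ev fun c => hcross c true a₁ a₂ d₁ d₂) → four (col b) y (m + 1) R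

/-! ## Conditional probabilities -/

def GCA_stmt : Prop :=
  ∀ (L : Finset V) (F : Set (V → Bool)) (A : Set V), Loc F A →
    (∀ b, 0 ≤ cpr L F b ∧ cpr L F b ≤ 1) ∧ ∫ b, cpr L F b ∂P1 = Pr F ∧
      ∀ b b', (∀ v ∈ L, b v = b' v) → cpr L F b = cpr L F b'

def GCB_stmt : Prop :=
  ∀ (L : Finset V) (F : Set (V → Bool)) (A : Set V), Loc F A →
    ∫ b, F.indicator (1 : (V → Bool) → ℝ) b * cpr L F b ∂P1 = ∫ b, cpr L F b ^ 2 ∂P1

/-- Cauchy-Schwarz: the variance of the conditional probability controls covariances with events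
which depend on `L`. -/
def GCC_stmt : Prop :=
  ∀ (L : Finset V) (F G : Set (V → Bool)) (A : Set V), Loc F A → Dep G (L : Set V) →
    (Pr F * Pr G - Pr (F ∩ G)) ^ 2 ≤ ((∫ b, cpr L F b ^ 2 ∂P1) - Pr F ^ 2) * Pr G

open Classical in
/-- Resampling a block changes the conditional probability at most by the probability that the
block is pivotal. -/
def GCD_stmt : Prop :=
  ∀ (L B : Finset V) (F : Set (V → Bool)) (A : Set V), Loc F A →
    ∫ w, |cpr L F (fun v => (w v).1) - cpr L F (fun v => (w v).2)|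
      ∂(PP fun v => if v ∈ B then 1 else 0) ≤ if Disjoint B L then 0 else Pr (Piv (B : Set V) F)

/-! ## The variance of the conditional probability

`GFull`: loops of colour `k` around all cells `x + 2 ℓ g`, `g ∈ T`. -/

def GFull (c : V → Bool) (k : Bool) (x : V) (ℓ : ℕ) (T : Finset (ℤ × ℤ)) : Prop :=
  ∀ g ∈ T, ∃ S, Loop c k (x.1 + 2 * ℓ * g.1, x.2 + 2 * ℓ * g.2) ℓ S

/-- Loop events are local and monotone. -/
def GLL_stmt : Prop :=
  ∀ (k : Bool) (g : V) (ℓ : ℕ), Loc (Ev fun c => ∃ S, Loop c k g ℓ S) {v | ℓ < sd g v ∧ sd g v < 3 * ℓ} ∧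
    Mon k (Ev fun c => ∃ S, Loop c k g ℓ S)

/-- Probability of `GFull` (FKG). -/
def GFU_stmt : Prop :=
  ∀ (c₀ : ℝ) (ℓ : ℕ), 0 ≤ c₀ → (∀ k g, c₀ ≤ Pr (Ev fun c => ∃ S, Loop c k g ℓ S)) →
    ∀ (k : Bool) (x : V) (T : Finset (ℤ × ℤ)), c₀ ^ T.card ≤ Pr (Ev fun c => GFull c k x ℓ T)

/-- The cells `(p, q)` with `|p|, |q| ≤ M`. -/
noncomputable def sqc (M : ℕ) : Finset (ℤ × ℤ) := Finset.Icc (-(M : ℤ)) M ×ˢ Finset.Icc (-(M : ℤ)) M

/-- Black lengthwise crossing of the top (`s = true`) or bottom strip. -/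
def Strip (c : V → Bool) (s : Bool) (N t : ℕ) : Prop :=
  ∃ u v : V, u.1 = -(2 * N : ℤ) ∧ v.1 = 2 * N ∧
    Conn c true {w | -(2 * N : ℤ) ≤ w.1 ∧ w.1 ≤ 2 * N ∧
      (if s = true then (4 * N : ℤ) - 3 * t < w.2 ∧ w.2 ≤ 4 * N
        else -(4 * N : ℤ) ≤ w.2 ∧ w.2 < -((4 * N : ℤ) - 3 * t))} u v

/-- White loops around all cells of the bulk force a black crossing of the square into a strip
(`LH`): a black crossing avoids `box g ℓ` for every cell `g` of the bulk, hence it avoids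
`box 0 (4 N - 3 t)`; consider it between its last visit of the column `-2 N` and the next visit of
the column `2 N`. -/
def GV1_stmt : Prop :=
  ∀ (c : V → Bool) (ℓ J : ℕ), 1 ≤ ℓ → 3 ≤ J →
    GFull c false 0 ℓ (sqc (16 * 2 ^ J - 10)) →
      hcross c true (-(4 * (2 ^ J * (8 * ℓ) : ℕ) : ℤ)) (4 * (2 ^ J * (8 * ℓ) : ℕ))
        (-(4 * (2 ^ J * (8 * ℓ) : ℕ) : ℤ)) (4 * (2 ^ J * (8 * ℓ) : ℕ)) →
        ∃ s, Strip c s (2 ^ J * (8 * ℓ)) (8 * ℓ)

/-- Strips are rarely crossed: white loops at scale `3 t` around the points `(18 t j, ± 4 N)` block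
the strip (`LH`) and are independent; `J` is chosen large. -/
def GV2_stmt : Prop :=
  ∃ J : ℕ, 3 ≤ J ∧ ∃ t₀ : ℕ, ∀ (t : ℕ) (s : Bool), t₀ ≤ t →
    Pr (Ev fun c => Strip c s (2 ^ J * t) t) ≤ 1 / 8

/-- Lower bound for the variance. `G = GFull c false 0 ℓ (sqc (16 * 2 ^ J - 10))` depends only on
`box 0 (4 N - 2 t)`; `Pr (F ∩ G) ≤ Pr G / 4` by `GV1`, `GV2`, FKG; `Pr F ≥ 1 / 2` by `GSC`; then
`GCC`. -/
def GV3_stmt : Prop :=
  ∃ J : ℕ, 3 ≤ J ∧ ∃ c₁ : ℝ, 0 < c₁ ∧ ∃ t₀ : ℕ, ∀ (t : ℕ) (L : Finset V), t₀ ≤ t → 8 ∣ t →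
    box 0 (4 * (2 ^ J * t) - 2 * t) ⊆ (L : Set V) → (L : Set V) ⊆ box 0 (4 * (2 ^ J * t) - t) →
      c₁ ≤ (∫ b, cpr L (fq (2 ^ J * t)) b ^ 2 ∂P1) - Pr (fq (2 ^ J * t)) ^ 2

/-! ## G1: exploration of the interface from the lower left corner -/

/-- Candidates for the next site. -/
def gcand (N : ℕ) (X : Finset V) (b : V → Bool) : Set V :=
  {w | w ∈ Dq N ∧ w ∉ X ∧ (w.1 = -(4 * N : ℤ) ∨ ∃ v ∈ X, col b v = true ∧ Adj v w) ∧
    (w.2 = -(4 * N : ℤ) ∨ ∃ v ∈ X, col b v = false ∧ Adj v w)}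

/-- Stopping condition. -/
def gstop (N : ℕ) (X : Finset V) (b : V → Bool) : Prop :=
  (∃ v ∈ X, col b v = true ∧ v.1 = 4 * N) ∨ ∃ v ∈ X, col b v = false ∧ v.2 = 4 * N

open Classical in
/-- The rule. -/
noncomputable def gnext (N : ℕ) (X : Finset V) (b : V → Bool) : Finset V :=
  if (gcand N X b).Nonempty ∧ ¬ gstop N X b then {Classical.epsilon fun w => w ∈ gcand N X b}
  else ∅

def G1R_stmt : Prop :=
  ∀ N : ℕ, Rule (DqF N) (gnext N) ∧ (∀ X b, (gnext N X b).card ≤ 1) ∧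
    ∀ X b v, v ∈ gnext N X b → v ∈ gcand N X b

/-- Invariants of the exploration. -/
def G1I_stmt : Prop :=
  ∀ (N : ℕ) (b : V → Bool) (n : ℕ), run (gnext N) b n ⊆ DqF N ∧
    (∀ v ∈ run (gnext N) b n, col b v = true →
      ∃ u : V, u.1 = -(4 * N : ℤ) ∧ Conn (col b) true (run (gnext N) b n : Set V) v u) ∧
    ∀ v ∈ run (gnext N) b n, col b v = false →
      ∃ u : V, u.2 = -(4 * N : ℤ) ∧ Conn (col b) false (run (gnext N) b n : Set V) v u

/-- The revealed sites determine the crossing event (`EX`, `RC`). -/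
def G1D_stmt : Prop :=
  ∀ (N : ℕ) (b b' : V → Bool), (∀ v ∈ run (gnext N) b (DqF N).card, b v = b' v) →
    (b ∈ fq N ↔ b' ∈ fq N)

/-- The slit of a state. -/
def gsl (N : ℕ) (X : Finset V) : Set V := {w | w ∈ X ∨ w.1 < -(4 * N : ℤ)}

/-- If the next site `v` is pivotal (given the revealed sites) there are a black and a white arm
from the neighbourhood of `v` avoiding the slit. A crossing of the configuration with `v` black:
its part after the last revealed site (all revealed black sites are connected to the left side by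
revealed black sites) contains `v`, otherwise there would be a crossing not using `v`; so there is a
black path from `v` to the right side through unrevealed sites; the same for white, from `v` to the
top side (`HX` gives the white crossing of the configuration with `v` white). -/
def G1P_stmt : Prop :=
  ∀ (N : ℕ) (b b' : V → Bool) (n : ℕ) (v x : V) (m R : ℕ),
    v ∈ gnext N (run (gnext N) b n) b →
    glue (run (gnext N) b n) b b' ∈ Piv {v} (fq N) → sd x v < m → m ≤ R →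
    (∀ w, sd x w ≤ R → -(4 * N : ℤ) < w.1 ∧ w.1 < 4 * N ∧ -(4 * N : ℤ) < w.2 ∧ w.2 < 4 * N) →
      twoA (col b') (gsl N (run (gnext N) b n)) x m R

/-- The slit reaches from the neighbourhood of `v` to infinity. -/
def G1S_stmt : Prop :=
  ∀ (N : ℕ) (b : V → Bool) (n : ℕ) (v x : V) (m R : ℕ), v ∈ gnext N (run (gnext N) b n) b →
    -(4 * N : ℤ) < v.1 → sd x v + 1 ≤ m → Slit (gsl N (run (gnext N) b n)) x m R

/-! ## G2: the inequality from the exploration -/

/-- From `Btree`, `GV3`, `G1R`, `G1D`, `G1P`, `G1S`, `GPV`, `GFM`, `GTR`. Take `t = 2 ^ (L + 1)`,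
`N = 2 ^ J * t`, `L₀` = the sites of `box 0 (4 N - t)`; for `v ∈ L₀` let `x` be the even point with
`sd x v ≤ 1`. -/
def G2_stmt : Prop :=
  ∃ C : ℝ, 0 < C ∧ ∃ L₁ : ℕ, ∀ (m L : ℕ) (κ : ℝ), L₁ ≤ L → 2 ≤ m → m < 2 ^ L → 0 ≤ κ →
    (∀ (x : V) (γ : Set V), Even x.1 → Even x.2 → (∀ n, Slit γ x 2 n) →
      Pr (Ev fun c => twoA c γ x m (2 ^ L)) ≤ κ) →
      1 ≤ C * κ * (2 ^ L : ℝ) ^ 2 * Pr (Ev fun c => four c 0 m (2 ^ L))

/-! ## F3: growth, block exploration of the black clusters of the left side -/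

/-- Block number `n`: number `0` is the frame, the others are squares of side `2 m` (with
`S = K * m`, `0 < K`, the square `[-S, S - 1] ^ 2` is the disjoint union of the blocks
`1, …, K ^ 2`). -/
noncomputable def blk (N m K : ℕ) (n : ℕ) : Finset V :=
  if n = 0 then (DqF N).filter fun v =>
    ¬ (-(K * m : ℤ) ≤ v.1 ∧ v.1 < K * m ∧ -(K * m : ℤ) ≤ v.2 ∧ v.2 < K * m)
  else Finset.Icc (-(K * m : ℤ) + 2 * m * ((n - 1) % K : ℕ))
      (-(K * m : ℤ) + 2 * m * ((n - 1) % K : ℕ) + (2 * m - 1)) ×ˢ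
    Finset.Icc (-(K * m : ℤ) + 2 * m * ((n - 1) / K : ℕ))
      (-(K * m : ℤ) + 2 * m * ((n - 1) / K : ℕ) + (2 * m - 1))

/-- Centre of the block. -/
def bce (m K : ℕ) (n : ℕ) : V :=
  (-(K * m : ℤ) + 2 * m * ((n - 1) % K : ℕ) + m, -(K * m : ℤ) + 2 * m * ((n - 1) / K : ℕ) + m)

/-- The bulk. -/
noncomputable def blkL (m K : ℕ) : Finset V :=
  Finset.Icc (-(K * m : ℤ)) (K * m - 1) ×ˢ Finset.Icc (-(K * m : ℤ)) (K * m - 1)

/-- The blocks form a partition. -/
def GBP_stmt : Prop :=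
  ∀ (N m K : ℕ), 1 ≤ m → 1 ≤ K → K * m ≤ 4 * N →
    (∀ i ≤ K ^ 2, (blk N m K i).Nonempty ∧ blk N m K i ⊆ DqF N) ∧
    (∀ i ≤ K ^ 2, ∀ j ≤ K ^ 2, i ≠ j → Disjoint (blk N m K i) (blk N m K j)) ∧
    (∀ v ∈ DqF N, ∃ i ≤ K ^ 2, v ∈ blk N m K i) ∧
    (∀ i, 1 ≤ i → i ≤ K ^ 2 → blk N m K i ⊆ blkL m K ∧ (blk N m K i : Set V) ⊆ box (bce m K i) m) ∧
    Disjoint (blk N m K 0) (blkL m K)

open Classical in
/-- The rule: first the frame, then blocks which contain a neighbour of a revealed black site which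
is connected to the left side by revealed black sites. -/
noncomputable def fnext (N m K : ℕ) (X : Finset V) (b : V → Bool) : Finset V :=
  if Disjoint (blk N m K 0) X then blk N m K 0
  else if h : ∃ i, 1 ≤ i ∧ i ≤ K ^ 2 ∧ Disjoint (blk N m K i) X ∧ ∃ w ∈ blk N m K i, ∃ v u : V,
      Adj v w ∧ u.1 = -(4 * N : ℤ) ∧ Conn (col b) true (X : Set V) v u then
    blk N m K (Nat.find h)
  else ∅

def F3R_stmt : Prop :=
  ∀ (N m K : ℕ), 1 ≤ m → 1 ≤ K → K * m < 4 * N → Rule (DqF N) (fnext N m K) ∧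
    ∀ X b, fnext N m K X b = ∅ ∨ ∃ i ≤ K ^ 2, fnext N m K X b = blk N m K i

/-- The revealed sites determine the crossing event. -/
def F3D_stmt : Prop :=
  ∀ (N m K : ℕ), 1 ≤ m → 1 ≤ K → K * m < 4 * N → ∀ b b' : V → Bool,
    (∀ v ∈ run (fnext N m K) b (DqF N).card, b v = b' v) → (b ∈ fq N ↔ b' ∈ fq N)

/-- A revealed block of the bulk is reached by a black path from the left side. -/
def F3V_stmt : Prop :=
  ∀ (N m K i t : ℕ), 1 ≤ m → 1 ≤ K → K * m + t ≤ 4 * N → 1 ≤ t → 1 ≤ i → i ≤ K ^ 2 →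
    ∀ b : V → Bool, blk N m K i ⊆ run (fnext N m K) b (DqF N).card →
      reach (col b) true (bce m K i) (m + 1) t

/-- Growth. From `Bosss` (with `g = cpr (blkL m K) (fq N)`), `GCA`, `GCB`, `GCD`, `GV3`, `C2`, `GBP`,
`F3R`, `F3D`, `F3V`, `GPV`, `GTR`; `t = 2 ^ (j + 1)`, `N = 2 ^ J * t`, `K * m = 4 N - t`, `m = 2 ^ i`
(`i ≤ j`, `i ≥ 1`), blocks inside `box y m`, arms up to distance `2 ^ j`. -/
def F3_stmt : Prop :=
  ∃ c₂ : ℝ, 0 < c₂ ∧ ∃ a : ℝ, 0 < a ∧ ∃ i₀ : ℕ, ∀ i j : ℕ, i₀ ≤ i → i < j →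
    c₂ * ((2 : ℝ) ^ i / 2 ^ j) ^ (2 - a) ≤ Pr (Ev fun c => four c 0 (2 ^ i) (2 ^ j))

end DP
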