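import Pool.Agent.helper3.DP.SpecG2

namespace DP

open MeasureTheory

theorem G3_pr_mono {F G : Set (V → Bool)} (h : F ⊆ G) : Pr F ≤ Pr G := by
  unfold Pr
  have : IsProbabilityMeasure P1 := by unfold P1; infer_instance
  exact measureReal_mono h

theorem G3_armA_arm (c : V → Bool) (k : Bool) (γ : Set V) (x : V) (m n : ℕ)
    (h : armA c k γ x m n) : arm c k x m n := by
  obtain ⟨u, hu, v, hv, hc⟩ := h
  refine ⟨u, hu, v, hv, ⟨⟨hc.1.1.1, hc.1.2⟩, ?_⟩⟩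
  have h : ∀ w, Relation.ReflTransGen (fun a b => Adj a b ∧ b ∈ {w | w ∈ ann x m n \ γ ∧ c w = k}) u w →
      Relation.ReflTransGen (fun a b => Adj a b ∧ b ∈ {w | w ∈ ann x m n ∧ c w = k}) u w := by
    intro w hw
    induction hw with
    | refl => exact .refl
    | tail _ hab ih => exact ih.tail ⟨hab.1, hab.2.1.1, hab.2.2⟩
  exact h v hc.2

theorem G3 (hA : G3A_stmt) (hS : G3S_stmt) (hB : GBB_stmt) (hM : GFM_stmt) (hT : GTR_stmt) :
    G3_stmt := by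
  obtain ⟨c₁, hc₁, i₁, HB⟩ := hB
  obtain ⟨C₃, hC₃, i₂, HS⟩ := hS
  -- c₁ ≤ 1
  have hc₁1 : c₁ ≤ 1 := by
    obtain ⟨h1, h2, h3, -⟩ := HB 0 i₁ (i₁ + 1) (by simp) (by simp) le_rfl (by omega)
    have : c₁ * bb 0 i₁ (i₁ + 1) ≤ 1 * bb 0 i₁ (i₁ + 1) := by linarith
    exact le_of_mul_le_mul_right this h1
  obtain ⟨C₅, hC₅, i₃, HA⟩ := hA (1 / (2 * (1 / c₁))) (by positivity)
  obtain ⟨K, θ, hK, hθ, hθ1, H⟩ := GAR (max 1 C₃) (1 / c₁) (max 1 C₅) (le_max_left _ _)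
    ((one_le_div hc₁).2 hc₁1) (le_max_left _ _)
  refine ⟨K * (θ ^ 2)⁻¹ * (1 / c₁), θ, by positivity, hθ, hθ1, max i₁ (max i₂ i₃), ?_⟩
  intro γ x k₀ L hx1 hx2 hγ hk hL
  have hk1 : i₁ ≤ k₀ := le_trans (le_max_left _ _) hk
  have hk2 : i₂ ≤ k₀ := le_trans (le_trans (le_max_left _ _) (le_max_right _ _)) hk
  have hk3 : i₃ ≤ k₀ := le_trans (le_trans (le_max_right _ _) (le_max_right _ _)) hk
  have hy0 : ∀ i, 0 ≤ yy γ x k₀ i := fun i => measureReal_nonneg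
  have hu0 : ∀ i, 0 ≤ uu γ x k₀ i := fun i => measureReal_nonneg
  have hb : ∀ i, k₀ < i → 0 < bb x k₀ i := fun i hi => (HB x k₀ i hx1 hx2 hk1 hi).1
  have hymono : ∀ i j, k₀ ≤ i → i ≤ j → yy γ x k₀ j ≤ yy γ x k₀ i := by
    intro i j hi hij
    refine G3_pr_mono ?_
    intro b hb'
    have h1 : (2 : ℕ) ^ k₀ ≤ 2 ^ i := Nat.pow_le_pow_right (by norm_num) hi
    have h2 : (2 : ℕ) ^ i ≤ 2 ^ j := Nat.pow_le_pow_right (by norm_num) hij
    have h3 := (hM (col b) x (2 ^ k₀) (2 ^ k₀) (2 ^ i) (2 ^ j) le_rfl h1 h2).2.2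
    exact ⟨h3 true γ hb'.1, h3 false γ hb'.2⟩
  have hyb : ∀ i, yy γ x k₀ i ≤ bb x k₀ i := by
    intro i
    refine G3_pr_mono ?_
    intro b hb'
    exact ⟨G3_armA_arm _ _ _ _ _ _ hb'.1, G3_armA_arm _ _ _ _ _ _ hb'.2⟩
  have key := H (k₀ + 1) (L - 1) (yy γ x k₀) (uu γ x k₀) (fun i => if k₀ < i then bb x k₀ i else 1)
    (by omega) (fun i => ⟨hy0 i, by
      split_ifs with h
      · exact hb i h
      · norm_num⟩)
    (fun i hi => by
      have h1 : k₀ < i := by omega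
      have h2 : k₀ < i + 1 := by omega
      simp only [h1, h2, if_true]
      refine ⟨hymono i (i + 1) (by omega) (by omega), hyb i, ?_⟩
      have := (HB x k₀ i hx1 hx2 hk1 h1).2.2.1
      rw [one_div, inv_mul_eq_div, le_div_iff₀ hc₁]
      linarith)
    (fun i hi hi2 => by
      have h1 := HA γ x k₀ (i + 1) hx1 hx2 hk3 (by omega)
      simp only [Nat.add_sub_cancel] at h1
      have h2 : C₅ * uu γ x k₀ (i + 1) ≤ max 1 C₅ * uu γ x k₀ (i + 1) :=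
        mul_le_mul_of_nonneg_right (le_max_right _ _) (hu0 _)
      linarith)
    (fun k hk' => by
      have h1 := HS γ x k₀ k L hx1 hx2 hγ hk2 (by omega)
      have hkk : k₀ < k := by omega
      have h2 : L - 1 - 5 = L - 6 := by omega
      rw [h2]
      simp only [hkk, if_true]
      have h3 : ∑ i ∈ Finset.Ioc k (L - 6), uu γ x k₀ i / (if k₀ < i then bb x k₀ i else 1) =
          ∑ i ∈ Finset.Ioc k (L - 6), uu γ x k₀ i / bb x k₀ i := by
        apply Finset.sum_congr rfl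
        intro i hi
        rw [Finset.mem_Ioc] at hi
        rw [if_pos (by omega)]
      rw [h3]
      refine h1.trans ?_
      exact mul_le_mul_of_nonneg_right (le_max_right _ _) (div_nonneg (hy0 _) (hb k hkk).le))
  have hL1 : k₀ < L - 1 := by omega
  simp only [hL1, if_true] at key
  have h1 : yy γ x k₀ L ≤ yy γ x k₀ (L - 1) := hymono (L - 1) L (by omega) (by omega)
  have h2 := (HB x k₀ (L - 1) hx1 hx2 hk1 hL1).2.2.1
  rw [Nat.sub_add_cancel (by omega)] at h2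
  have h3 : bb x k₀ L = Pr (Ev fun c => two c 0 (2 ^ k₀) (2 ^ L)) := (hT x _ _ hx1 hx2).2
  have h4 : bb x k₀ (L - 1) ≤ 1 / c₁ * bb x k₀ L := by
    rw [one_div, inv_mul_eq_div, le_div_iff₀ hc₁]
    linarith
  have h5 : θ ^ (L - k₀) = θ ^ (L - 1 - (k₀ + 1)) * θ ^ 2 := by
    rw [← pow_add]
    congr 1
    omega
  change yy γ x k₀ L ≤ _
  rw [← h3]
  have hθp : 0 < θ ^ (L - 1 - (k₀ + 1)) := by positivity
  calc yy γ x k₀ L ≤ K * θ ^ (L - 1 - (k₀ + 1)) * bb x k₀ (L - 1) := h1.trans key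
    _ ≤ K * θ ^ (L - 1 - (k₀ + 1)) * (1 / c₁ * bb x k₀ L) := by gcongr
    _ = K * (θ ^ 2)⁻¹ * (1 / c₁) * θ ^ (L - k₀) * bb x k₀ L := by
        rw [h5]
        field_simp

end DP
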