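import Pool.Agent.helper3.DP.G3
import Pool.Agent.helper96.DP.Basic

/-!
# Module G3A: step (S1) of the slit lemma
-/

namespace DP

open MeasureTheory

theorem G3A (hSE : SE3_stmt) (hFA : FA_stmt) (hM : GFM_stmt) (hLA : GLA_stmt) (hZ : Bzero_stmt)
    (hXL : GXL_stmt) (hXF : GXF_stmt) (hXA : GXA_stmt) : G3A_stmt := by
  intro ε hε
  obtain ⟨C, hC, i₁, H⟩ := hSE ε hε
  refine ⟨C, hC, i₁, ?_⟩
  intro γ x k₀ i hx1 hx2 hk hi
  set D : Dat := Dfree true x (2 ^ k₀) with hD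
  set Xp : Set (V → Bool) := Ev fun c => armA c true γ x (2 ^ k₀) (2 ^ (i - 1)) with hXp
  set Xm : Set (V → Bool) := Ev fun c => armA c false γ x (2 ^ k₀) (2 ^ (i - 1)) with hXm
  have hpk : (2 : ℕ) ^ k₀ ≤ 2 ^ (i - 1) := Nat.pow_le_pow_right (by norm_num) (by omega)
  have hpi : (2 : ℕ) ^ (i - 1) ≤ 2 ^ i := Nat.pow_le_pow_right (by norm_num) (by omega)
  have hpi' : (2 : ℕ) ^ k₀ < 2 ^ i := Nat.pow_lt_pow_right (by norm_num) hi
  have h1k : (1 : ℕ) ≤ 2 ^ k₀ := Nat.one_le_two_pow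
  have hlocb : ∀ k, Loc (Ev fun c => armA c k γ x (2 ^ k₀) (2 ^ (i - 1))) (box x (2 ^ (i - 1))) :=
    fun k => ((hLA x (2 ^ k₀) (2 ^ (i - 1))).2.2 k γ).mono
      (Set.sdiff_subset.trans (ann_subset_box _ _ _))
  have hlX : Loc (Xp ∩ Xm) (box x (2 ^ (i - 1))) := by
    have := (hlocb true).inter (hlocb false)
    rwa [Set.union_self] at this
  have hLFam : Loc ((Xp ∩ Xm) ∩ Ev fun c => Fam c 2 true x (2 ^ i) D) Set.univ :=
    (hlX.inter (hXF 2 true x (2 ^ i) D (Or.inl rfl))).mono (Set.subset_univ _)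
  have hLStd : Loc ((Xp ∩ Xm) ∩ Ev fun c => Std c 2 true x (nx true (2 ^ i)) D) Set.univ := by
    have h1 := (hXL 2 true x (nx true (2 ^ i)) D (zpt x (nx true (2 ^ i))) (nx true (2 ^ i) / 64)
      (nx true (2 ^ i) / 8) true (Or.inl rfl)).1
    have h2 := (hXL 2 true x (nx true (2 ^ i)) D (zpt x (nx true (2 ^ i))) (nx true (2 ^ i) / 64)
      (nx true (2 ^ i) / 8) false (Or.inl rfl)).1
    exact (hlX.inter (h1.inter h2)).mono (Set.subset_univ _)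
  have hDok : D.ok true x (if true = true then 2 ^ (i - 1) else 2 ^ (i + 1)) := by
    refine ⟨?_, ?_⟩
    · intro l v hv
      have : sd x v = 2 ^ k₀ := hv
      change sd x v ≤ 2 ^ (i - 1)
      omega
    · intro k v hv
      have : sd x v < 2 ^ k₀ := by
        simpa [hD, Dfree] using hv
      change sd x v ≤ 2 ^ (i - 1)
      omega
  have hex : Extra true x (if true = true then 2 ^ (i - 1) else 2 ^ (i + 1)) Xp Xm :=
    ⟨hXA true γ x _ _, hXA false γ x _ _, hlocb true, hlocb false⟩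
  have key := H 2 true (fun _ => 0) x D Xp Xm (Xp ∩ Xm) i (Or.inl rfl)
    (fun v => ⟨le_rfl, zero_le_one⟩) (hx1.add hx2) (by omega) hDok hex hlX Set.inter_subset_left
  rw [hZ _ _ _ _ hLFam hLFam (fun _ _ => rfl), hZ _ _ _ _ hLStd hLStd (fun _ _ => rfl),
    hZ _ _ _ _ hlX hlX (fun _ _ => rfl), Set.inter_self, Set.inter_self, Set.inter_self] at key
  have h1 : yy γ x k₀ i ≤ Pr ((Xp ∩ Xm) ∩ Ev fun c => Fam c 2 true x (2 ^ i) D) := by
    refine G3_pr_mono ?_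
    intro b hb
    have hm := (hM (col b) x (2 ^ k₀) (2 ^ k₀) (2 ^ (i - 1)) (2 ^ i) le_rfl hpk hpi).2.2
    refine ⟨⟨hm true γ hb.1, hm false γ hb.2⟩, ?_⟩
    change Fam (col b) 2 true x (2 ^ i) D
    rw [(hFA (col b) 2 x (2 ^ k₀) (2 ^ i) (Or.inl rfl) (hx1.add hx2) h1k hpi').1]
    exact ⟨G3_armA_arm _ _ _ _ _ _ hb.1, G3_armA_arm _ _ _ _ _ _ hb.2⟩
  have h2 : ((Xp ∩ Xm) ∩ Ev fun c => Std c 2 true x (nx true (2 ^ i)) D) =
      Ev fun c => Uev c γ x k₀ i := by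
    have : nx true (2 ^ i) = 2 ^ (i + 1) := by
      simp only [nx, if_true]
      rw [pow_succ]
      ring
    rw [this]
    rfl
  have h3 : Pr (Xp ∩ Xm) = yy γ x k₀ (i - 1) := rfl
  rw [h2, h3] at key
  exact h1.trans key

end DP
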