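import Pool.Agent.helper3.DP.SpecG2
import Pool.Agent.helper96.DP.Basic

/-!
# Module G3E: one of the two switches closes the scale
-/

namespace DP

open MeasureTheory

theorem G3E (hG : Gate.GATE_stmt) : G3E_stmt := by
  intro γ x i hi hγ
  set ℓ : ℕ := 2 ^ (i - 4) with hℓ
  have h1ℓ : 1 ≤ ℓ := Nat.one_le_two_pow
  have hp4 : (2 : ℕ) ^ (i + 4) = 256 * ℓ := by
    rw [hℓ, show i + 4 = (i - 4) + 8 by omega, pow_add]
    ring
  have hpi : (2 : ℕ) ^ i = 16 * ℓ := by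
    rw [hℓ]
    conv_lhs => rw [show i = (i - 4) + 4 by omega, pow_add]
    ring
  obtain ⟨u, v, hu, hv, hcon⟩ := hγ (144 * ℓ)
  have hgate : ∀ (j : Bool) (c : V → Bool) (k₀ L : ℕ), Fev c γ x k₀ L i j →
      Gate.GateEv j x ℓ c := by
    intro j c k₀ L hF
    constructor
    · intro p hp
      refine hF.2.2.1.1 p ?_
      simp only [swc, if_true, Finset.mem_union]
      exact Or.inr (Or.inl hp)
    · intro p hp
      refine hF.2.2.2.1 p ?_
      simp only [swc, Bool.false_eq_true, if_false, Finset.mem_union]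
      exact Or.inr (Or.inl hp)
  have hkey : ∀ (k : Bool) (c : V → Bool) (k₀ : ℕ), k₀ < i →
      armA c k γ x (2 ^ k₀) (2 ^ (i + 4)) → ∃ (W : Set V) (a b : V), (∀ w ∈ W, c w = k) ∧
        Con W a b ∧ sd x a ≤ 64 * ℓ ∧ 128 * ℓ ≤ sd x b ∧ ¬ (W ∩ γ).Nonempty := by
    rintro k c k₀ hk ⟨a, ha, b, hb, hab⟩
    have hlt : (2 : ℕ) ^ k₀ < 2 ^ i := Nat.pow_lt_pow_right (by norm_num) hk
    have ha' : sd x a = 2 ^ k₀ := ha
    have hb' : sd x b = 2 ^ (i + 4) := hb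
    refine ⟨_, a, b, fun w hw => hw.2, hab, by omega, by omega, ?_⟩
    rintro ⟨w, hw, hwγ⟩
    exact hw.1.2 hwγ
  rcases hG x ℓ h1ℓ γ u v hcon (by omega) hv with h | h
  · refine ⟨true, ?_⟩
    intro c k₀ L hk hF ht
    obtain ⟨W, a, b, h1, h2, h3, h4, h5⟩ := hkey true c k₀ hk ht.1
    exact h5 (h c (hgate true c k₀ L hF) W a b h1 h2 h3 h4)
  · refine ⟨false, ?_⟩
    intro c k₀ L hk hF ht
    obtain ⟨W, a, b, h1, h2, h3, h4, h5⟩ := hkey false c k₀ hk ht.2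
    exact h5 (h c (hgate false c k₀ L hF) W a b h1 h2 h3 h4)

end DP
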