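import Pool.Agent.helper3.DP.SpecG2

namespace DP

open MeasureTheory

theorem G4 (h2 : G2_stmt) (h3 : G3_stmt) : G4_stmt := by
  obtain ⟨C, hC, L₁, H2⟩ := h2
  obtain ⟨K, θ, hK, hθ, hθ1, k₁, H3⟩ := h3
  refine ⟨(C * K)⁻¹, θ⁻¹, by positivity, (one_lt_inv₀ hθ).2 hθ1, max k₁ (max L₁ 1), ?_⟩
  intro k₀ L hk hL
  have hk1 : k₁ ≤ k₀ := le_trans (le_max_left _ _) hk
  have hk2 : L₁ ≤ k₀ := le_trans (le_trans (le_max_left _ _) (le_max_right _ _)) hk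
  have hk3 : 1 ≤ k₀ := le_trans (le_trans (le_max_right _ _) (le_max_right _ _)) hk
  set b : ℝ := Pr (Ev fun c => two c 0 (2 ^ k₀) (2 ^ L)) with hb
  set a : ℝ := Pr (Ev fun c => four c 0 (2 ^ k₀) (2 ^ L)) with ha
  have hb0 : 0 ≤ b := measureReal_nonneg
  have ha0 : 0 ≤ a := measureReal_nonneg
  have key := H2 (2 ^ k₀) L (K * θ ^ (L - k₀) * b) (by omega)
    (by
      calc 2 = 2 ^ 1 := rfl
        _ ≤ 2 ^ k₀ := Nat.pow_le_pow_right (by norm_num) hk3)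
    (Nat.pow_lt_pow_right (by norm_num) (by omega)) (by positivity)
    (fun x γ hx1 hx2 hγ => H3 γ x k₀ L hx1 hx2 hγ hk1 hL)
  rw [← ha] at key
  have hpos : 0 < θ ^ (L - k₀) := by positivity
  rw [inv_pow, ← mul_inv, inv_le_iff_one_le_mul₀ (by positivity)]
  calc (1 : ℝ) ≤ C * (K * θ ^ (L - k₀) * b) * (2 ^ L) ^ 2 * a := key
    _ = (2 ^ L) ^ 2 * a * b * (C * K * θ ^ (L - k₀)) := by ring

end DP
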