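import Pool.Agent.helper3.DP.SpecG2
import Pool.Agent.helper96.DP.Basic

/-!
# Module GXC: the cells and the region of the switch
-/

namespace DP

open MeasureTheory

theorem GXC_mono {A B : Finset (ℤ × ℤ)} (h : A ⊆ B) {p q : ℤ × ℤ} (hc : Gate.CCon A p q) :
    Gate.CCon B p q := by
  obtain ⟨hp, hc⟩ := hc
  refine ⟨h hp, ?_⟩
  induction hc with
  | refl => exact .refl
  | tail _ hab ih => exact ih.tail ⟨hab.1, h hab.2⟩

theorem GXC_trans {A : Finset (ℤ × ℤ)} {p q r : ℤ × ℤ} (h : Gate.CCon A p q)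
    (h' : Gate.CCon A q r) : Gate.CCon A p r := ⟨h.1, h.2.trans h'.2⟩

theorem GXC_right {A : Finset (ℤ × ℤ)} {p q : ℤ × ℤ} (h : Gate.CCon A p q) : q ∈ A := by
  rcases Relation.ReflTransGen.cases_tail h.2 with h1 | ⟨w, -, h1⟩
  · exact h1 ▸ h.1
  · exact h1.2

theorem GXC_ray (A : Finset (ℤ × ℤ)) (f : ℤ → ℤ × ℤ) (hf : ∀ t, Gate.cnb (f t) (f (t + 1)))
    (a b : ℤ) (hab : a ≤ b) (hA : ∀ t, a ≤ t → t ≤ b → f t ∈ A) : Gate.CCon A (f a) (f b) := by
  obtain ⟨n, rfl⟩ : ∃ n : ℕ, b = a + n := ⟨(b - a).toNat, by omega⟩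
  clear hab
  induction n with
  | zero =>
    simp only [Nat.cast_zero, add_zero]
    exact ⟨hA a le_rfl (by simp), .refl⟩
  | succ n ih =>
    have h1 := ih fun t ht ht' => hA t ht (by push_cast; omega)
    refine ⟨h1.1, h1.2.tail ⟨?_, hA _ (by push_cast; omega) le_rfl⟩⟩
    have := hf (a + n)
    push_cast
    rw [← add_assoc]
    exact this

theorem GXC (hC : Gate.GATEC_stmt) : GXC_stmt := by
  intro j
  obtain ⟨h1, h2, h3, h4, h5⟩ := hC j
  have hB0 : ((32 : ℤ), (0 : ℤ)) ∈ Gate.Bc j := h4.1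
  have hB1 : ((64 : ℤ), (0 : ℤ)) ∈ Gate.Bc j := GXC_right h4
  have hW0 : ((0 : ℤ), (32 : ℤ)) ∈ Gate.Wc j := h5.1
  have hW1 : ((0 : ℤ), (64 : ℤ)) ∈ Gate.Wc j := GXC_right h5
  have mB : ∀ p : ℤ × ℤ, p ∈ swc true j ↔ ((16 ≤ p.1 ∧ p.1 ≤ 32 ∧ p.2 = 0) ∨ p ∈ Gate.Bc j ∨
      (64 ≤ p.1 ∧ p.1 ≤ 128 ∧ p.2 = 0)) := by
    intro p
    simp only [swc, if_true, Finset.mem_union, Finset.mem_product, Finset.mem_Icc,
      Finset.mem_singleton, and_assoc]
  have mW : ∀ p : ℤ × ℤ, p ∈ swc false j ↔ ((16 ≤ p.2 ∧ p.2 ≤ 32 ∧ p.1 = 0) ∨ p ∈ Gate.Wc j ∨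
      (64 ≤ p.2 ∧ p.2 ≤ 128 ∧ p.1 = 0)) := by
    intro p
    simp only [swc, Bool.false_eq_true, if_false, Finset.mem_union, Finset.mem_product,
      Finset.mem_Icc, Finset.mem_singleton]
    tauto
  refine ⟨?_, ?_, ?_, ?_, ?_⟩
  · refine GXC_trans (GXC_ray _ (fun t => (t, 0)) (fun t => Or.inl rfl) 16 32 (by norm_num)
      fun t ht ht' => (mB _).2 (Or.inl ⟨ht, ht', rfl⟩)) ?_
    refine GXC_trans (GXC_mono (fun p hp => (mB _).2 (Or.inr (Or.inl hp))) h4) ?_
    exact GXC_ray _ (fun t => (t, 0)) (fun t => Or.inl rfl) 64 128 (by norm_num)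
      fun t ht ht' => (mB _).2 (Or.inr (Or.inr ⟨ht, ht', rfl⟩))
  · refine GXC_trans (GXC_ray _ (fun t => (0, t)) (fun t => Or.inr (Or.inr (Or.inl rfl))) 16 32
      (by norm_num) fun t ht ht' => (mW _).2 (Or.inl ⟨ht, ht', rfl⟩)) ?_
    refine GXC_trans (GXC_mono (fun p hp => (mW _).2 (Or.inr (Or.inl hp))) h5) ?_
    exact GXC_ray _ (fun t => (0, t)) (fun t => Or.inr (Or.inr (Or.inl rfl))) 64 128
      (by norm_num) fun t ht ht' => (mW _).2 (Or.inr (Or.inr ⟨ht, ht', rfl⟩))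
  · intro p hp q hq
    rw [mB] at hp
    rw [mW] at hq
    rcases hp with hp | hp | hp
    · rcases hq with hq | hq | hq
      · omega
      · have a1 := h1 _ hB0 q hq
        have a2 := h3 q hq
        unfold Gate.annC Gate.Rc at a2
        simp only at a1
        omega
      · omega
    · rcases hq with hq | hq | hq
      · have a1 := h1 p hp _ hW0
        have a2 := h2 p hp
        unfold Gate.annC Gate.Rc at a2
        simp only at a1
        omega
      · exact h1 p hp q hq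
      · have a1 := h1 p hp _ hW1
        have a2 := h2 p hp
        unfold Gate.annC Gate.Rc at a2
        simp only at a1
        omega
    · rcases hq with hq | hq | hq
      · omega
      · have a1 := h1 _ hB1 q hq
        have a2 := h3 q hq
        unfold Gate.annC Gate.Rc at a2
        simp only at a1
        omega
      · omega
  · intro p hp
    rw [mB] at hp
    rcases hp with hp | hp | hp
    · exact Or.inl hp
    · exact Or.inr (Or.inl (h2 p hp))
    · exact Or.inr (Or.inr hp)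
  · intro p hp
    rw [mW] at hp
    rcases hp with hp | hp | hp
    · exact Or.inl hp
    · exact Or.inr (Or.inl (h3 p hp))
    · exact Or.inr (Or.inr hp)

theorem GXR (hX : GXC_stmt) : GXR_stmt := by
  intro j x ℓ hℓ
  obtain ⟨-, -, hsep, hb, hw⟩ := hX j
  have hl1 : (1 : ℤ) ≤ ℓ := by exact_mod_cast hℓ
  have hm : ∀ a b : ℤ, a ≤ b → 2 * (ℓ : ℤ) * a ≤ 2 * ℓ * b := fun a b h =>
    mul_le_mul_of_nonneg_left h (by omega)
  have hms : ∀ a b : ℤ, 2 * (ℓ : ℤ) * (a - b) = 2 * ℓ * a - 2 * ℓ * b := fun a b => by ring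
  -- position of the cells of the annulus
  have hann : ∀ p : ℤ × ℤ, Gate.annC p → (2 * (ℓ : ℤ) * p.1 ≤ -64 * ℓ ∨ 64 * ℓ ≤ 2 * (ℓ : ℤ) * p.1 ∨
      2 * (ℓ : ℤ) * p.2 ≤ -64 * ℓ ∨ 64 * ℓ ≤ 2 * (ℓ : ℤ) * p.2) ∧ -128 * ℓ ≤ 2 * (ℓ : ℤ) * p.1 ∧
      2 * (ℓ : ℤ) * p.1 ≤ 128 * ℓ ∧ -128 * ℓ ≤ 2 * (ℓ : ℤ) * p.2 ∧
      2 * (ℓ : ℤ) * p.2 ≤ 128 * ℓ := by
    intro p hp
    obtain ⟨h1, h2, h3, h4, h5⟩ := hp
    have e1 := hm _ _ h2
    have e2 := hm _ _ h3
    have e3 := hm _ _ h4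
    have e4 := hm _ _ h5
    refine ⟨?_, by omega, by omega, by omega, by omega⟩
    rcases h1 with h1 | h1 | h1 | h1
    · have := hm _ _ h1
      omega
    · have := hm _ _ h1
      omega
    · have := hm _ _ h1
      omega
    · have := hm _ _ h1
      omega
  have hray : ∀ (a b t : ℤ), a ≤ t → t ≤ b → 2 * (ℓ : ℤ) * a ≤ 2 * ℓ * t ∧
      2 * (ℓ : ℤ) * t ≤ 2 * ℓ * b := fun a b t h1 h2 => ⟨hm _ _ h1, hm _ _ h2⟩
  have h0 : 2 * (ℓ : ℤ) * 0 = 0 := by ring
  -- classification of the region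
  have hcl : ∀ k, ∀ v ∈ swr k j x ℓ, 29 * ℓ < sd x v ∧ sd x v < 268 * ℓ ∧
      (sd x v ≤ 32 * ℓ → sd (zpt x (32 * ℓ) (kix k)) v < 3 * ℓ) ∧
      (256 * ℓ ≤ sd x v → sd (zpt x (256 * ℓ) (kix k)) v < 12 * ℓ) := by
    intro k v hv
    cases k
    · rcases hv with ⟨p, hp, hpv⟩ | hv
      · rcases hw p hp with ⟨h1, h2, h3⟩ | h | ⟨h1, h2, h3⟩
        · obtain ⟨e1, e2⟩ := hray _ _ _ h1 h2
          rw [h3] at hpv
          simp only [kix, zpt, Bool.false_eq_true, if_false, Nat.one_mod, one_ne_zero, if_true, sd]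
            at hpv ⊢
          push_cast at hpv ⊢
          omega
        · obtain ⟨e0, e1, e2, e3, e4⟩ := hann p h
          simp only [kix, zpt, Bool.false_eq_true, if_false, Nat.one_mod, one_ne_zero, if_true, sd]
            at hpv ⊢
          push_cast at hpv ⊢
          omega
        · obtain ⟨e1, e2⟩ := hray _ _ _ h1 h2
          rw [h3] at hpv
          simp only [kix, zpt, Bool.false_eq_true, if_false, Nat.one_mod, one_ne_zero, if_true, sd]
            at hpv ⊢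
          push_cast at hpv ⊢
          omega
      · simp only [kix, zpt, Bool.false_eq_true, if_false, Nat.one_mod, one_ne_zero, if_true, sd]
          at hv ⊢
        push_cast at hv ⊢
        omega
    · rcases hv with ⟨p, hp, hpv⟩ | hv
      · rcases hb p hp with ⟨h1, h2, h3⟩ | h | ⟨h1, h2, h3⟩
        · obtain ⟨e1, e2⟩ := hray _ _ _ h1 h2
          rw [h3] at hpv
          simp only [kix, zpt, if_true, Nat.zero_mod, sd] at hpv ⊢
          push_cast at hpv ⊢
          omega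
        · obtain ⟨e0, e1, e2, e3, e4⟩ := hann p h
          simp only [kix, zpt, if_true, Nat.zero_mod, sd] at hpv ⊢
          push_cast at hpv ⊢
          omega
        · obtain ⟨e1, e2⟩ := hray _ _ _ h1 h2
          rw [h3] at hpv
          simp only [kix, zpt, if_true, Nat.zero_mod, sd] at hpv ⊢
          push_cast at hpv ⊢
          omega
      · simp only [kix, zpt, if_true, Nat.zero_mod, sd] at hv ⊢
        push_cast at hv ⊢
        omega
  refine ⟨?_, hcl⟩
  rw [Set.disjoint_left]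
  rintro v hv hv'
  rcases hv with ⟨p, hp, hpv⟩ | hv
  · rcases hv' with ⟨q, hq, hqv⟩ | hv'
    · have e1 := hms p.1 q.1
      have e2 := hms p.2 q.2
      simp only [sd] at hpv hqv
      rcases hsep p hp q hq with h | h | h | h
      · have := hm _ _ h
        omega
      · have := hm _ _ h
        have := hms q.1 p.1
        omega
      · have := hm _ _ h
        omega
      · have := hm _ _ h
        have := hms q.2 p.2
        omega
    · simp only [kix, zpt, Bool.false_eq_true, if_false, Nat.one_mod, one_ne_zero, if_true, sd]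
        at hpv hv'
      push_cast at hpv hv'
      rcases hb p hp with ⟨h1, h2, h3⟩ | h | ⟨h1, h2, h3⟩
      · rw [h3] at hpv
        omega
      · obtain ⟨e0, e1, e2, e3, e4⟩ := hann p h
        omega
      · rw [h3] at hpv
        omega
  · rcases hv' with ⟨q, hq, hqv⟩ | hv'
    · simp only [kix, zpt, if_true, Nat.zero_mod, sd] at hqv hv
      push_cast at hqv hv
      rcases hw q hq with ⟨h1, h2, h3⟩ | h | ⟨h1, h2, h3⟩
      · rw [h3] at hqv
        omega
      · obtain ⟨e0, e1, e2, e3, e4⟩ := hann q h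
        omega
      · rw [h3] at hqv
        omega
    · simp only [kix, zpt, Bool.false_eq_true, if_false, Nat.one_mod, one_ne_zero, if_true,
        Nat.zero_mod, sd] at hv hv'
      push_cast at hv hv'
      omega

end DP
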