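import Pool.Agent.helper3.DP.SpecG2
import Pool.Agent.helper96.DP.Basic

/-!
# Module GXL: marked arms are local and monotone
-/

namespace DP

open MeasureTheory

theorem GXL_fin (s : Bool) (x : V) (n : ℕ) (N : Set V) (h : s = true ∨ ∃ M, {v | M < sd x v} ⊆ N) :
    (HS s x n \ N).Finite := by
  rcases h with h | ⟨M, hM⟩
  · subst h
    refine (box_finite x n).subset ?_
    intro v hv
    have := hv.1
    simpa [HS] using this
  · refine (box_finite x M).subset ?_
    intro v hv
    by_contra hc
    exact hv.2 (hM (by simpa [box] using hc))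

theorem GXL : GXL_stmt := by
  intro j s x n D y a A k h
  constructor
  · refine Loc.ev ?_ ?_
    · refine GXL_fin s x n _ ?_
      rcases h with h | ⟨M, hM⟩
      · exact Or.inl h
      · exact Or.inr ⟨M, fun v hv => Or.inl (hM hv)⟩
    · intro c c' hcc
      unfold MrkC
      simp only [Conn.congr (R := HS s x n \ (D.N k ∪ opp j y A k)) hcc]
  · refine Mon.ev ?_
    intro c c' hcc h'
    have key : ∀ u v : V, Conn c k (HS s x n \ (D.N k ∪ opp j y A k)) u v →
        Conn c' k (HS s x n \ (D.N k ∪ opp j y A k)) u v :=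
      fun u v huv => huv.colour_mono fun w _ hw => hcc w hw
    rcases h' with h' | h'
    · left
      intro i hi hk
      obtain ⟨p, hp, u, hu, h1, h2⟩ := h' i hi hk
      exact ⟨p, hp, u, hu, h1, key _ _ h2⟩
    · right
      intro i hi hk
      obtain ⟨p, hp, u, hu, h1, h2⟩ := h' i hi hk
      exact ⟨p, hp, u, hu, h1, key _ _ h2⟩

theorem GXF : GXF_stmt := by
  intro j s x n D h
  have hf : ∀ k, (HS s x n \ D.N k).Finite := fun k => GXL_fin s x n _ (by
    rcases h with h | ⟨M, hM⟩
    · exact Or.inl h
    · exact Or.inr ⟨M, hM k⟩)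
  refine (Loc.ev (A := (HS s x n \ D.N true) ∪ (HS s x n \ D.N false)) ((hf true).union (hf false))
    ?_).mono ?_
  · intro c c' hcc
    have key : ∀ (k : Bool) (u v : V), Conn c k (HS s x n \ D.N k) u v ↔
        Conn c' k (HS s x n \ D.N k) u v := by
      intro k u v
      refine Conn.congr ?_
      intro w hw
      refine hcc w ?_
      cases k
      · exact Or.inr hw
      · exact Or.inl hw
    unfold Fam
    simp only [key]
  · rintro v (hv | hv)
    · exact hv.1
    · exact hv.1

theorem GXA : GXA_stmt := by
  intro k γ x m n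
  refine Mon.ev ?_
  rintro c c' hcc ⟨u, hu, v, hv, h⟩
  exact ⟨u, hu, v, hv, h.colour_mono fun w _ hw => hcc w hw⟩

theorem GXM : GXM_stmt := by
  have h1 : ∀ (x : V) (n A : ℕ) (k : Bool),
      opp 2 (zpt x n) A k = {v | sd (zpt x n (kix (!k))) v ≤ A} := by
    intro x n A k
    ext v
    unfold opp
    constructor
    · rintro ⟨l, hl, hk, h⟩
      have : l = kix (!k) := by
        interval_cases l <;> cases k <;> simp_all [kol, kix]
      rw [← this]
      exact h
    · intro h
      refine ⟨kix (!k), ?_, ?_, h⟩
      · cases k <;> simp [kix]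
      · cases k <;> simp [kix, kol]
  refine ⟨h1, ?_⟩
  intro c s x n D
  have h2 : ∀ k, MrkC c 2 s x n D (zpt x n) (n / 64) (n / 8) k ↔
      ∃ p ∈ D.I (kix k), ∃ u ∈ bd x n, sd (zpt x n (kix k)) u ≤ n / 64 ∧
        Conn c k (HS s x n \ (D.N k ∪ {v | sd (zpt x n (kix (!k))) v ≤ n / 8})) p u := by
    intro k
    unfold MrkC
    rw [h1]
    have hk2 : kix k < 2 := by cases k <;> simp [kix]
    have hkk : kol (kix k) = k := by cases k <;> simp [kix, kol]
    have hk3 : (kix k + 2) % 2 = kix k := by cases k <;> simp [kix]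
    constructor
    · rintro (h | h)
      · exact h (kix k) hk2 hkk
      · have := h (kix k) hk2 hkk
        rwa [hk3] at this
    · intro h
      left
      intro i hi hki
      have : i = kix k := by
        interval_cases i <;> cases k <;> simp_all [kol, kix]
      rw [this]
      exact h
  unfold Std Mrk
  rw [h2, h2]
  constructor
  · rintro ⟨ht, hf⟩ k
    cases k
    · exact hf
    · exact ht
  · intro h
    exact ⟨h true, h false⟩

end DP
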