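import Pool.Agent.helper29.DP.GFM
import Pool.Agent.helper10.DP.GTR
import Pool.Agent.helper10.DP.G1S
import Pool.Agent.helper35.DP.GLO
import Pool.Agent.helper92.DP.GCE
import Pool.Agent.helper80.DP.GFU
import Pool.Agent.helper50.DP.GV3
import Pool.Agent.helper60.DP.GV1
import Pool.Agent.helper75.DP.GV2
import Pool.Agent.helper60.DP.G1D
import Pool.Agent.helper60.DP.G1P
import Pool.Agent.helper30.DP.G1R
import Pool.Agent.helper50.DP.G2
import Pool.Agent.helper75.DP.GBP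
import Pool.Agent.helper75.DP.F3R
import Pool.Agent.helper75.DP.F3D
import Pool.Agent.helper79.DP.F3V
import Pool.Agent.helper92.DP.F3
import Pool.Agent.helper11.DP.GSC
import Pool.Agent.helper75.DP.GPV
import Pool.Agent.helper30.DP.Btree
import Pool.Agent.helper30.DP.Bosss
import Pool.Agent.helper79.DP.GBB
import Pool.Agent.helper95.DP.G3D
import Pool.Agent.helper89.DP.G3Q
import Pool.Agent.helper89.DP.GXS
import Pool.Agent.helper10.DP.G3S
import Pool.Agent.helper98.DP.GATE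
import Pool.Agent.helper3.DP.G3A
import Pool.Agent.helper3.DP.G3
import Pool.Agent.helper3.DP.G4
import Pool.Agent.helper3.DP.GXL
import Pool.Agent.helper3.DP.GXC
import Pool.Agent.helper3.DP.G3E
import Pool.Agent.helper95.DP.BEASY
import Pool.Agent.helper35.DP.BIND
import Pool.Agent.helper17.DP.BFKG
import Pool.Agent.helper49.DP.BSYM
import Pool.Agent.helper91.DP.Bgen
import Pool.Agent.helper48.DP.G3P

/-!
# Assembly of part G: growth `F3` and the key inequality `G4`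
-/

namespace DP

/-- Variance bound. -/
theorem AsmG_GV3 (hLH : LH_stmt) (hHX : HX_stmt) (hC1 : C1_stmt) : GV3_stmt :=
  GV3 Bfkg Bzero hC1 (GSC hHX Bflip) GCC GLF GLL (GFU Bfkg Bzero GLL) (GV1 hLH)
    (GV2 hLH hC1 Bindep Bmarg GLL)

/-- Growth. -/
theorem AsmG_F3 (hLH : LH_stmt) (hHX : HX_stmt) (hC1 : C1_stmt) (hC2 : C2_stmt) : F3_stmt :=
  F3 Bosss (AsmG_GV3 hLH hHX hC1) hC2 GBP (F3R GBP) (F3D (F3R GBP) GBP) (F3V GBP) GPV
    (GTR Bsym Bmarg) GFM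

/-- The inequality of the exploration. -/
theorem AsmG_G2 (hLH : LH_stmt) (hRC : RC_stmt) (hHX : HX_stmt) (hEX : EX_stmt)
    (hC1 : C1_stmt) : G2_stmt :=
  G2 Btree (AsmG_GV3 hLH hHX hC1) G1R (G1D hEX hRC G1R G1I) (G1P hHX hRC G1R G1I) (G1S G1R G1I)
    GPV GFM (GTR Bsym Bmarg) GLF

/-- The slit lemma. -/
theorem AsmG_G3 (hLH : LH_stmt) (hLC : LC_stmt) (hLN : LN_stmt) (hRC : RC_stmt) (hC1 : C1_stmt)
    (hSE : SE3_stmt) (hSEPI : SEPI_stmt) (hLB : LB_stmt) (hFA : FA_stmt) (hAM : AM_stmt)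
    (hQM : QM_stmt) (hEXT : EXT_stmt) (hSUB : SUB_stmt) : G3_stmt := by
  have hXC : GXC_stmt := GXC Gate.GATEC
  have hXR : GXR_stmt := GXR hXC
  have hXS : GXS_stmt := GXS GLL (GFU Bfkg Bzero GLL) hC1 Bfkg Bzero
  have hBB : GBB_stmt := GBB hQM hEXT hSUB hAM Bzero Bmono
  have hA : G3A_stmt := G3A hSE hFA GFM GLA Bzero GXL GXF GXA
  have hD : G3D_stmt := G3D hLH hLC (Gate.LOOPS hLC hLN) GXM hXC hXR
  have hE : G3E_stmt := G3E (Gate.GATE hLH hRC)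
  have hQ : G3Q_stmt := G3Q hSEPI hLB hFA hAM Bzero
  have hP : G3P_stmt := G3P Bgen Bindep Bzero GXL GXA GXM hXR hXS GLA
  have hS : G3S_stmt := G3S hD hE hP hQ hBB GFM GLA GXL hXS Bindep Bzero
  exact G3 hA hS hBB GFM (GTR Bsym Bmarg)

/-- The key inequality. -/
theorem AsmG_G4 (hLH : LH_stmt) (hLC : LC_stmt) (hLN : LN_stmt) (hRC : RC_stmt) (hHX : HX_stmt)
    (hEX : EX_stmt) (hC1 : C1_stmt) (hSE : SE3_stmt) (hSEPI : SEPI_stmt) (hLB : LB_stmt)
    (hFA : FA_stmt) (hAM : AM_stmt) (hQM : QM_stmt) (hEXT : EXT_stmt) (hSUB : SUB_stmt) :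
    G4_stmt :=
  G4 (AsmG_G2 hLH hRC hHX hEX hC1)
    (AsmG_G3 hLH hLC hLN hRC hC1 hSE hSEPI hLB hFA hAM hQM hEXT hSUB)

end DP
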