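import Mathlib

namespace DP

/-- Arithmetic of the slit lemma. -/
def GAR_stmt : Prop :=
  ∀ C₃ C₄ C₅ : ℝ, 1 ≤ C₃ → 1 ≤ C₄ → 1 ≤ C₅ → ∃ K θ : ℝ, 0 < K ∧ 0 < θ ∧ θ < 1 ∧
    ∀ (k₀ L : ℕ) (y u b : ℕ → ℝ), k₀ + 6 ≤ L → (∀ i, 0 ≤ y i ∧ 0 < b i) →
      (∀ i, k₀ ≤ i → y (i + 1) ≤ y i ∧ y i ≤ b i ∧ b i ≤ C₄ * b (i + 1)) →
      (∀ i, k₀ ≤ i → i + 6 ≤ L → y (i + 1) ≤ C₅ * u (i + 1) + 1 / (2 * C₄) * y i) →
      (∀ k, k₀ ≤ k → ∑ i ∈ Finset.Ioc k (L - 5), u i / b i ≤ C₃ * (y k / b k)) →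
        y L ≤ K * θ ^ (L - k₀) * b L

theorem GAR : GAR_stmt := by
  intro C₃ C₄ C₅ h3 h4 h5
  set M : ℝ := 2 * (C₅ * C₃ + 1) with hM
  have hM2 : 2 ≤ M := by
    have : 1 ≤ C₅ * C₃ := one_le_mul_of_one_le_of_one_le h5 h3
    linarith
  have hMpos : 0 < M := by linarith
  refine ⟨C₄ ^ 5 * M * ((1 + 1 / M)⁻¹ ^ 6)⁻¹, (1 + 1 / M)⁻¹, ?_, ?_, ?_, ?_⟩
  · positivity
  · positivity
  · apply inv_lt_one_of_one_lt₀
    have : 0 < 1 / M := by positivity
    linarith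
  intro k₀ L y u b hL hpos hmon hS1 hS3
  set n : ℕ := L - 5 with hn
  set ρ : ℕ → ℝ := fun i => y i / b i with hρ
  have hρ0 : ∀ i, 0 ≤ ρ i := fun i => div_nonneg (hpos i).1 (hpos i).2.le
  -- one step
  have hstep : ∀ i, k₀ ≤ i → i + 6 ≤ L → ρ (i + 1) ≤ C₅ * (u (i + 1) / b (i + 1)) + 1 / 2 * ρ i := by
    intro i hi hi2
    have h1 := hS1 i hi hi2
    have hb1 := (hpos (i + 1)).2
    have hb := (hpos i).2
    have hbb := (hmon i hi).2.2
    have h2 : 1 / (2 * C₄) * y i / b (i + 1) ≤ 1 / 2 * (y i / b i) := by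
      have hC : 0 < C₄ := by linarith
      rw [div_le_iff₀ hb1]
      have : 1 / 2 * (y i / b i) * b (i + 1) = (1 / (2 * C₄) * y i) * (C₄ * b (i + 1) / b i) := by
        field_simp
      rw [this]
      have h3 : 1 ≤ C₄ * b (i + 1) / b i := by rwa [le_div_iff₀ hb, one_mul]
      have h4' : 0 ≤ 1 / (2 * C₄) * y i := mul_nonneg (by positivity) (hpos i).1
      exact le_mul_of_one_le_right h4' h3
    calc ρ (i + 1) = y (i + 1) / b (i + 1) := rfl
      _ ≤ (C₅ * u (i + 1) + 1 / (2 * C₄) * y i) / b (i + 1) := by gcongr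
      _ = C₅ * (u (i + 1) / b (i + 1)) + 1 / (2 * C₄) * y i / b (i + 1) := by ring
      _ ≤ _ := by linarith
  -- sums
  have hsum : ∀ k, k₀ ≤ k → k ≤ n → ∑ i ∈ Finset.Ioc k n, ρ i ≤ M * ρ k := by
    intro k hk hkn
    have h1 : ∑ i ∈ Finset.Ioc k n, ρ i ≤
        ∑ i ∈ Finset.Ioc k n, (C₅ * (u i / b i) + 1 / 2 * ρ (i - 1)) := by
      apply Finset.sum_le_sum
      intro i hi
      rw [Finset.mem_Ioc] at hi
      obtain ⟨j, rfl⟩ : ∃ j, i = j + 1 := ⟨i - 1, by omega⟩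
      have := hstep j (by omega) (by omega)
      simpa using this
    have h2 : ∑ i ∈ Finset.Ioc k n, ρ (i - 1) ≤ ρ k + ∑ i ∈ Finset.Ioc k n, ρ i := by
      have h3 : ∑ i ∈ Finset.Ioc k n, ρ (i - 1) = ∑ i ∈ Finset.Ico k n, ρ i := by
        apply Finset.sum_bij (fun i _ => i - 1)
        · intro a ha
          rw [Finset.mem_Ioc] at ha
          rw [Finset.mem_Ico]
          omega
        · intro a ha a' ha' h
          rw [Finset.mem_Ioc] at ha ha'
          omega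
        · intro c hc
          rw [Finset.mem_Ico] at hc
          exact ⟨c + 1, by rw [Finset.mem_Ioc]; omega, by omega⟩
        · intro a _
          rfl
      rw [h3]
      have h4' : ∑ i ∈ Finset.Ico k n, ρ i ≤ ∑ i ∈ Finset.Icc k n, ρ i :=
        Finset.sum_le_sum_of_subset_of_nonneg Finset.Ico_subset_Icc_self fun i _ _ => hρ0 i
      have h5' : ∑ i ∈ Finset.Icc k n, ρ i = ρ k + ∑ i ∈ Finset.Ioc k n, ρ i := by
        rw [← Finset.Ioc_insert_left hkn, Finset.sum_insert (by simp)]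
      linarith
    have h6 := hS3 k hk
    rw [Finset.sum_add_distrib, ← Finset.mul_sum, ← Finset.mul_sum] at h1
    have h7 : C₅ * ∑ i ∈ Finset.Ioc k n, u i / b i ≤ C₅ * (C₃ * ρ k) := by gcongr
    have h8 : 0 ≤ ρ k := hρ0 k
    rw [hM]
    nlinarith
  -- decay
  have hdec : ∀ j, k₀ + j ≤ n → (1 + 1 / M) ^ j * ∑ i ∈ Finset.Ioc (k₀ + j) n, ρ i ≤
      M * ρ k₀ := by
    intro j
    induction j with
    | zero =>
      intro hj
      simpa using hsum k₀ le_rfl (by omega)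
    | succ j ih =>
      intro hj
      have h1 := ih (by omega)
      have h2 : ∑ i ∈ Finset.Ioc (k₀ + j) n, ρ i =
          ρ (k₀ + j + 1) + ∑ i ∈ Finset.Ioc (k₀ + j + 1) n, ρ i := by
        have : Finset.Ioc (k₀ + j) n = insert (k₀ + j + 1) (Finset.Ioc (k₀ + j + 1) n) := by
          ext i
          simp only [Finset.mem_Ioc, Finset.mem_insert]
          omega
        rw [this, Finset.sum_insert (by simp)]
      have h3 := hsum (k₀ + j + 1) (by omega) (by omega)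
      have h4' : (1 + 1 / M) * ∑ i ∈ Finset.Ioc (k₀ + (j + 1)) n, ρ i ≤
          ∑ i ∈ Finset.Ioc (k₀ + j) n, ρ i := by
        rw [h2]
        have h5' : 1 / M * ∑ i ∈ Finset.Ioc (k₀ + j + 1) n, ρ i ≤ ρ (k₀ + j + 1) := by
          rw [div_mul_eq_mul_div, one_mul, div_le_iff₀ hMpos]
          linarith
        have : k₀ + (j + 1) = k₀ + j + 1 := by ring
        rw [this]
        linarith
      calc (1 + 1 / M) ^ (j + 1) * ∑ i ∈ Finset.Ioc (k₀ + (j + 1)) n, ρ i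
          = (1 + 1 / M) ^ j * ((1 + 1 / M) * ∑ i ∈ Finset.Ioc (k₀ + (j + 1)) n, ρ i) := by ring
        _ ≤ (1 + 1 / M) ^ j * ∑ i ∈ Finset.Ioc (k₀ + j) n, ρ i := by gcongr
        _ ≤ _ := h1
  have hρk : ρ k₀ ≤ 1 := by
    have := (hmon k₀ le_rfl).2.1
    exact (div_le_one (hpos k₀).2).2 this
  have hlast : (1 + 1 / M) ^ (L - 6 - k₀) * ρ n ≤ M := by
    have h1 := hdec (L - 6 - k₀) (by omega)
    have h2 : Finset.Ioc (k₀ + (L - 6 - k₀)) n = {n} := by
      ext i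
      simp only [Finset.mem_Ioc, Finset.mem_singleton]
      omega
    rw [h2, Finset.sum_singleton] at h1
    nlinarith
  -- from n to L
  have hyn : ∀ j, y (n + j) ≤ y n := by
    intro j
    induction j with
    | zero => simp
    | succ j ih => exact ((hmon (n + j) (by omega)).1).trans ih
  have hbn : ∀ j, b n ≤ C₄ ^ j * b (n + j) := by
    intro j
    induction j with
    | zero => simp
    | succ j ih =>
      have h1 := (hmon (n + j) (by omega)).2.2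
      calc b n ≤ C₄ ^ j * b (n + j) := ih
        _ ≤ C₄ ^ j * (C₄ * b (n + j + 1)) := by gcongr
        _ = _ := by ring_nf
  have h1 : y L ≤ y n := by
    have := hyn 5
    rwa [show n + 5 = L by omega] at this
  have h2 : b n ≤ C₄ ^ 5 * b L := by
    have := hbn 5
    rwa [show n + 5 = L by omega] at this
  have hq : 0 < 1 + 1 / M := by positivity
  have h3 : ρ n ≤ M * (1 + 1 / M)⁻¹ ^ (L - 6 - k₀) := by
    rw [inv_pow, ← div_eq_mul_inv, le_div_iff₀ (by positivity)]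
    linarith
  have h4' : (1 + 1 / M)⁻¹ ^ (L - 6 - k₀) = ((1 + 1 / M)⁻¹ ^ 6)⁻¹ * (1 + 1 / M)⁻¹ ^ (L - k₀) := by
    have : L - k₀ = 6 + (L - 6 - k₀) := by omega
    rw [this, pow_add]
    field_simp
  calc y L ≤ y n := h1
    _ = ρ n * b n := by
      have := (hpos n).2.ne'
      simp only [hρ]
      field_simp
    _ ≤ (M * (1 + 1 / M)⁻¹ ^ (L - 6 - k₀)) * (C₄ ^ 5 * b L) := by
      have := (hpos n).2.le
      gcongr
    _ = _ := by rw [h4']; ring

end DP
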