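import Pool.Agent.helper96.DP.SpecE
import Pool.Agent.helper98.DP.GateDefs
import Pool.Agent.helper3.DP.SpecG1
import Pool.Agent.helper3.DP.GAR

/-!
# Part G, second half: the slit lemma (two arms avoiding a connected set) and the key inequality

`x` has even coordinates, `γ` is a set with a connected part from `box x 2` to every distance,
`m = 2 ^ k₀`. With `ℓ = 2 ^ (i - 4)`: `2 ^ (i - 1) = 8 ℓ`, `2 ^ (i + 1) = 32 ℓ`, gate region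
`64 ℓ ≤ sd x v ≤ 128 ℓ`, `2 ^ (i + 4) = 256 ℓ`.
-/

namespace DP

open MeasureTheory

/-- Two arms avoiding `γ`. -/
noncomputable def yy (γ : Set V) (x : V) (k₀ i : ℕ) : ℝ :=
  Pr (Ev fun c => twoA c γ x (2 ^ k₀) (2 ^ i))

/-- Two arms. -/
noncomputable def bb (x : V) (k₀ i : ℕ) : ℝ := Pr (Ev fun c => two c x (2 ^ k₀) (2 ^ i))

/-- Two arms avoiding `γ` up to `2 ^ (i - 1)` and standard arms at `2 ^ (i + 1)`. -/
def Uev (c : V → Bool) (γ : Set V) (x : V) (k₀ i : ℕ) : Prop :=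
  twoA c γ x (2 ^ k₀) (2 ^ (i - 1)) ∧ Std c 2 true x (2 ^ (i + 1)) (Dfree true x (2 ^ k₀))

noncomputable def uu (γ : Set V) (x : V) (k₀ i : ℕ) : ℝ := Pr (Ev fun c => Uev c γ x k₀ i)

/-! ## Locality -/

/-- Locality and monotonicity of marked arms. -/
def GXL_stmt : Prop :=
  ∀ (j : ℕ) (s : Bool) (x : V) (n : ℕ) (D : Dat) (y : ℕ → V) (a A : ℕ) (k : Bool),
    (s = true ∨ ∃ M, {v | M < sd x v} ⊆ D.N k) →
      Loc (Ev fun c => MrkC c j s x n D y a A k) (HS s x n \ (D.N k ∪ opp j y A k)) ∧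
        Mon k (Ev fun c => MrkC c j s x n D y a A k)

/-- Locality of free arms. -/
def GXF_stmt : Prop :=
  ∀ (j : ℕ) (s : Bool) (x : V) (n : ℕ) (D : Dat), (s = true ∨ ∃ M, ∀ k, {v | M < sd x v} ⊆ D.N k) →
    Loc (Ev fun c => Fam c j s x n D) (HS s x n)

/-- Arms avoiding `γ` are monotone. -/
def GXA_stmt : Prop :=
  ∀ (k : Bool) (γ : Set V) (x : V) (m n : ℕ), Mon k (Ev fun c => armA c k γ x m n)

/-- Number of the standard point of colour `k`. -/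
def kix (k : Bool) : ℕ := if k = true then 0 else 1

/-- `Std` for two arms. -/
def GXM_stmt : Prop :=
  (∀ (x : V) (n A : ℕ) (k : Bool), opp 2 (zpt x n) A k = {v | sd (zpt x n (kix (!k))) v ≤ A}) ∧
    ∀ (c : V → Bool) (s : Bool) (x : V) (n : ℕ) (D : Dat), Std c 2 s x n D ↔
      ∀ k, ∃ p ∈ D.I (kix k), ∃ u ∈ bd x n, sd (zpt x n (kix k)) u ≤ n / 64 ∧
        Conn c k (HS s x n \ (D.N k ∪ {v | sd (zpt x n (kix (!k))) v ≤ n / 8})) p u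

/-! ## The switch: a gate with its connections -/

/-- Cells of the colour `k`: the ray from `16` to `32`, the gate, the ray from `64` to `128`. -/
noncomputable def swc (k j : Bool) : Finset (ℤ × ℤ) :=
  if k = true then (Finset.Icc 16 32 ×ˢ {0}) ∪ (Gate.Bc j ∪ (Finset.Icc 64 128 ×ˢ {0}))
  else ({0} ×ˢ Finset.Icc 16 32) ∪ (Gate.Wc j ∪ ({0} ×ˢ Finset.Icc 64 128))

/-- Loops around the cells and a hook of radius `4 ℓ` around the standard point of `256 ℓ`. -/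
def Sw (c : V → Bool) (k j : Bool) (x : V) (ℓ : ℕ) : Prop :=
  GFull c k x ℓ (swc k j) ∧ ∃ S, Loop c k (zpt x (256 * ℓ) (kix k)) (4 * ℓ) S

/-- The region of the switch. -/
def swr (k j : Bool) (x : V) (ℓ : ℕ) : Set V :=
  {v | (∃ p ∈ swc k j, sd (x.1 + 2 * ℓ * p.1, x.2 + 2 * ℓ * p.2) v < 3 * ℓ) ∨
    sd (zpt x (256 * ℓ) (kix k)) v < 12 * ℓ}

/-- Cells: connection of the first and the last cell, opposite cells are separated. -/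
def GXC_stmt : Prop :=
  ∀ j : Bool, Gate.CCon (swc true j) (16, 0) (128, 0) ∧ Gate.CCon (swc false j) (0, 16) (0, 128) ∧
    (∀ p ∈ swc true j, ∀ q ∈ swc false j, 3 ≤ p.1 - q.1 ∨ 3 ≤ q.1 - p.1 ∨ 3 ≤ p.2 - q.2 ∨
      3 ≤ q.2 - p.2) ∧
    (∀ p ∈ swc true j, (16 ≤ p.1 ∧ p.1 ≤ 32 ∧ p.2 = 0) ∨ Gate.annC p ∨
      (64 ≤ p.1 ∧ p.1 ≤ 128 ∧ p.2 = 0)) ∧
    ∀ p ∈ swc false j, (16 ≤ p.2 ∧ p.2 ≤ 32 ∧ p.1 = 0) ∨ Gate.annC p ∨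
      (64 ≤ p.2 ∧ p.2 ≤ 128 ∧ p.1 = 0)

/-- Geometry of the region of the switch (from `GXC`). -/
def GXR_stmt : Prop :=
  ∀ (j : Bool) (x : V) (ℓ : ℕ), 1 ≤ ℓ → Disjoint (swr true j x ℓ) (swr false j x ℓ) ∧
    ∀ k, ∀ v ∈ swr k j x ℓ, 29 * ℓ < sd x v ∧ sd x v < 268 * ℓ ∧
      (sd x v ≤ 32 * ℓ → sd (zpt x (32 * ℓ) (kix k)) v < 3 * ℓ) ∧
      (256 * ℓ ≤ sd x v → sd (zpt x (256 * ℓ) (kix k)) v < 12 * ℓ)

/-- The switch event is local, monotone, and has positive probability (`GLL`, `GFU`, `C1`, `Bfkg`,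
`Bzero`). -/
def GXS_stmt : Prop :=
  (∀ (k j : Bool) (x : V) (ℓ : ℕ), Loc (Ev fun c => Sw c k j x ℓ) (swr k j x ℓ) ∧
    Mon k (Ev fun c => Sw c k j x ℓ)) ∧
  ∃ c₁ : ℝ, 0 < c₁ ∧ ∃ ℓ₀ : ℕ, ∀ (k j : Bool) (x : V) (ℓ : ℕ), ℓ₀ ≤ ℓ →
    c₁ ≤ Pr (Ev fun c => Sw c k j x ℓ)

/-! ## The event of the scale `i` -/

/-- Arms avoiding `γ` up to `2 ^ (i - 1)`, standard at `2 ^ (i + 1)`; the switch; arms with standard
inner end points from `2 ^ (i + 4)` to `2 ^ L`. -/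
def Fev (c : V → Bool) (γ : Set V) (x : V) (k₀ L i : ℕ) (j : Bool) : Prop :=
  Uev c γ x k₀ i ∧ Std c 2 false x (2 ^ (i + 4)) (Dfree false x (2 ^ L)) ∧
    Sw c true j x (2 ^ (i - 4)) ∧ Sw c false j x (2 ^ (i - 4))

/-- Gluing (deterministic: `LH`, `LC`, `LOOPS`, `GXM`, `GXC`, `GXR`). For each colour: the inner arm
hits the loop of the first cell, the loops of the cells are connected (`LOOPS` with
`A = swc k j`), the hook is hit by the way from the loop of the last cell to the loop of the first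
cell and by the outer arm. -/
def G3D_stmt : Prop :=
  ∀ (c : V → Bool) (γ : Set V) (x : V) (k₀ L i : ℕ) (j : Bool), 4 ≤ i → k₀ < i → i + 5 ≤ L →
    Fev c γ x k₀ L i j → two c x (2 ^ k₀) (2 ^ L)

/-- One of the two switches closes the scale (`GATE`). -/
def G3E_stmt : Prop :=
  ∀ (γ : Set V) (x : V) (i : ℕ), 4 ≤ i → (∀ n, Slit γ x 2 n) →
    ∃ j : Bool, ∀ (c : V → Bool) (k₀ L : ℕ), k₀ < i → Fev c γ x k₀ L i j →
      ¬ twoA c γ x (2 ^ k₀) (2 ^ (i + 4))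

/-- Probability (from `Bgen` with `Ep`, `Em` = the black and the white arms of the first two parts
of `Fev`, `Up`, `Um` = the switches, `Sp = swr true j x ℓ`, `Sm = swr false j x ℓ`, `S` = the
rest; then `Bindep` for `box x (2 ^ (i + 1))` and `{v | 2 ^ (i + 4) ≤ sd x v}`; `GXL`, `GXA`, `GXM`,
`GXR`, `GXS`, `GLA`, `Bzero`; `Pr` is `Q` with the profile `0`). -/
def G3P_stmt : Prop :=
  ∃ c₁ : ℝ, 0 < c₁ ∧ ∃ i₁ : ℕ, ∀ (γ : Set V) (x : V) (k₀ L i : ℕ) (j : Bool), i₁ ≤ k₀ → k₀ < i →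
    i + 5 ≤ L →
      c₁ * (uu γ x k₀ i * Pr (Ev fun c => Std c 2 false x (2 ^ (i + 4)) (Dfree false x (2 ^ L)))) ≤
        Pr (Ev fun c => Fev c γ x k₀ L i j)

/-- Separation at the inner side (`SEPI` with `i₀ = L - 1`, `LB`, `FA`, `AM`, `GXL`, `GXM`, `GXF`,
`Bzero`). -/
def G3Q_stmt : Prop :=
  ∃ c₁ : ℝ, 0 < c₁ ∧ ∃ i₁ : ℕ, ∀ (x : V) (L i : ℕ), Even x.1 → Even x.2 → i₁ ≤ i → i + 6 ≤ L →
    c₁ * Pr (Ev fun c => two c x (2 ^ (i + 5)) (2 ^ L)) ≤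
      Pr (Ev fun c => Std c 2 false x (2 ^ (i + 4)) (Dfree false x (2 ^ L)))

/-- Facts about two arms (`QM`, `EXT`, `SUB`, `AM`, `GLA`, `Bzero`, all with `j = 2`, `ρ = 0`). -/
def GBB_stmt : Prop :=
  ∃ c₁ : ℝ, 0 < c₁ ∧ ∃ i₁ : ℕ, ∀ (x : V) (k₀ i : ℕ), Even x.1 → Even x.2 → i₁ ≤ k₀ → k₀ < i →
    0 < bb x k₀ i ∧ bb x k₀ (i + 1) ≤ bb x k₀ i ∧ c₁ * bb x k₀ i ≤ bb x k₀ (i + 1) ∧
      ∀ L, i + 1 < L →
        c₁ * (bb x k₀ i * Pr (Ev fun c => two c x (2 ^ (i + 1)) (2 ^ L))) ≤ bb x k₀ L ∧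
        (i + 5 < L → bb x k₀ L ≤ bb x k₀ i * Pr (Ev fun c => two c x (2 ^ (i + 5)) (2 ^ L)))

/-- Step (S1): from `SE3` with `j = 2`, `s = true`, `ρ = 0`, `D = Dfree true x (2 ^ k₀)`,
`Xp`, `Xm` = arms of the two colours avoiding `γ` up to `2 ^ (i - 1)`, `Y = Xp ∩ Xm`; `FA`, `GFM`,
`GXL`, `GXF`, `GXA`, `GXM`, `GLA`, `Bzero`. -/
def G3A_stmt : Prop :=
  ∀ ε : ℝ, 0 < ε → ∃ C : ℝ, 0 < C ∧ ∃ i₁ : ℕ, ∀ (γ : Set V) (x : V) (k₀ i : ℕ), Even x.1 →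
    Even x.2 → i₁ ≤ k₀ → k₀ < i → yy γ x k₀ i ≤ C * uu γ x k₀ i + ε * yy γ x k₀ (i - 1)

/-- Step (S3): the events `Fev` with `k < i ≤ L - 6` and the `j` of `G3E` are contained in
`twoA x (2 ^ k₀) (2 ^ k) ∩ two x (2 ^ (k + 1)) (2 ^ L)` (`G3D`, `GFM`) and every configuration lies in
at most five of them (`G3E`, `GFM`); `G3P`, `G3Q`, `GBB`, `Bindep`, `GLA`, `Bzero`, `GXL`, `GXS`. -/
def G3S_stmt : Prop :=
  ∃ C : ℝ, 0 < C ∧ ∃ i₁ : ℕ, ∀ (γ : Set V) (x : V) (k₀ k L : ℕ), Even x.1 → Even x.2 →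
    (∀ n, Slit γ x 2 n) → i₁ ≤ k₀ → k₀ < k →
      ∑ i ∈ Finset.Ioc k (L - 6), uu γ x k₀ i / bb x k₀ i ≤ C * (yy γ x k₀ k / bb x k₀ k)

/-- The slit lemma. From `G3A`, `G3S`, `GBB`, `GAR` (with `k₀ + 1`, `L - 1`), `GFM`, `GTR`. -/
def G3_stmt : Prop :=
  ∃ K θ : ℝ, 0 < K ∧ 0 < θ ∧ θ < 1 ∧ ∃ k₁ : ℕ, ∀ (γ : Set V) (x : V) (k₀ L : ℕ), Even x.1 →
    Even x.2 → (∀ n, Slit γ x 2 n) → k₁ ≤ k₀ → k₀ + 8 ≤ L →
      Pr (Ev fun c => twoA c γ x (2 ^ k₀) (2 ^ L)) ≤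
        K * θ ^ (L - k₀) * Pr (Ev fun c => two c 0 (2 ^ k₀) (2 ^ L))

/-- The key inequality `n ^ 2 * Pr four * Pr two ≥ c * n ^ a`. From `G2`, `G3`. -/
def G4_stmt : Prop :=
  ∃ c₁ B : ℝ, 0 < c₁ ∧ 1 < B ∧ ∃ k₁ : ℕ, ∀ k₀ L : ℕ, k₁ ≤ k₀ → k₀ + 8 ≤ L →
    c₁ * B ^ (L - k₀) ≤ (2 ^ L : ℝ) ^ 2 * Pr (Ev fun c => four c 0 (2 ^ k₀) (2 ^ L)) *
      Pr (Ev fun c => two c 0 (2 ^ k₀) (2 ^ L))

end DP
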